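import Pool.Agent.TH86.IL.QI

/-!
# Iterated lamplighters with different numbers of factors are not quasi-isometric

Full (negative) answer to Q1 and Q2 of MP_c4d261_al: for every infinite finitely presented group
`H`, the iterated lamplighter groups `ℤ/2 ≀ (ℤ/2 ≀ ( ⋯ ≀ H))` with different numbers of factors
are pairwise not quasi-isometric. Q1 is the case of 2 and 1 factors, Q2 the case of 3 and 2.

Idea of the proof. If (a Cayley graph of) `H` is not tree-like, it contains a bi-infinite geodesic
whose two ends are not separated by any bounded cut; since `H` is finitely presented, such lines
are mapped by coarse embeddings of `H` into iterated lamplighters near copies of `H`, and pairs of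
commuting lamp moves detect the levels: two commuting far apart moves must be of the same
level, so a quasi-isometry would map `m` levels injectively to `n` levels. If `H` is tree-like,
fractional Foelner-type coverings separate the groups.
-/

set_option autoImplicit false

universe u

namespace Pool.Agent.Results.MP_c4d261_al.IteratedLamplighters

open Pool.Agent.TH86.IL

/-- For every infinite finitely presented group `H` and all `m ≠ n`, the `m`-fold and the `n`-fold
iterated lamplighter groups over `H` are not quasi-isometric. -/
theorem result (H : GrpCat.{u}) [Infinite H] [Group.IsFinitelyPresented H] (m n : ℕ)
    (hmn : m ≠ n) : ¬ QuasiIsometric (iterL H m) (iterL H n) :=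
  not_quasiIsometric H hmn

end Pool.Agent.Results.MP_c4d261_al.IteratedLamplighters
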